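import Pool.Agent.W813.NC.Stm

set_option linter.unusedSectionVars false

open CategoryTheory Limits MonoidalCategory

namespace Pool.Agent.W258.NC

open Pool.Agent.W492.MT (tpow tr)
open Pool.Agent.W239.KC (rpt rpt_fubini rpt_sup rpt_whisker)
open Pool.Agent.W813.NC

universe v u

variable (T : Type u) [Category.{v} T] [MonoidalCategory T] [SymmetricCategory T]
  [RightRigidCategory T]

theorem trr : S_TRR T := by
  intro X Z g
  have h1 := rpt_whisker (T := T) (X ⊗ Z) (𝟙_ T) g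
  have h2 := rpt_fubini (T := T) X Z (A := 𝟙_ T) (B := 𝟙_ T) ((𝟙_ T) ◁ g)
  rw [rpt_sup, h1, rpt_whisker] at h2
  have h3 : (𝟙_ T) ◁ tr g = (𝟙_ T) ◁ tr (rpt Z g) := by
    have h4 := congrArg (fun x => (ρ_ (𝟙_ T)).hom ≫ x ≫ (ρ_ (𝟙_ T)).inv) h2
    simpa using h4
  simpa [id_whiskerLeft] using h3

end Pool.Agent.W258.NC
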